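import Pool.Agent.MP_c6eade_gt.Mg.Main

/-!
Rank-nullity inequalities for kernels of matrices over a tracial commutant.
-/

namespace Pool.Agent.MP_c6eade_gt.H6

open Filter Topology Matrix TM
open scoped InnerProductSpace

universe u v

variable {M : TM.{v}}
variable {ι κ μ ν : Type} [Fintype ι] [Fintype κ] [Fintype μ] [Fintype ν]

lemma pk_mem (C : Matrix κ ι M.N) (v : M.Hs ι) : mop (pk C) v ∈ kr C := by
  rw [mop_pk]; exact Submodule.starProjection_apply_mem _ v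

lemma pk_of_mem {C : Matrix κ ι M.N} {v : M.Hs ι} (h : v ∈ kr C) : mop (pk C) v = v := by
  rw [mop_pk]; exact Submodule.starProjection_eq_self_iff.2 h

lemma pk_mul_of_mem {C : Matrix κ ι M.N} {X : Matrix ι μ M.N} (h : ∀ v, mop X v ∈ kr C) :
    pk C * X = X :=
  mop_inj fun v => by rw [mop_mul, pk_of_mem (h v)]

lemma ttr_le_nul {C : Matrix κ ι M.N} {e : Matrix ι ι M.N} (h1 : eᴴ = e) (h2 : e * e = e)
    (h : ∀ v, mop e v ∈ kr C) : (ttr e).re ≤ nul C := by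
  have h3 : e * pk C = e := by
    have := congrArg conjTranspose (pk_mul_of_mem h)
    rwa [conjTranspose_mul, pk_conj, h1] at this
  have h4 : ∀ v, ‖mop e v‖ ≤ 1 * ‖v‖ := by
    intro v
    have h5 : ⟪mop e v, mop e v⟫_ℂ = ⟪mop e v, v⟫_ℂ := by
      rw [← inner_mop_conj, h1, ← mop_mul, h2]
    rw [inner_self_eq_norm_sq_to_K] at h5
    have h6 := norm_inner_le_norm (𝕜 := ℂ) (mop e v) v
    rw [← h5] at h6
    simp only [norm_pow, Complex.coe_algebraMap, Complex.norm_real, norm_norm] at h6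
    rcases (norm_nonneg (mop e v)).eq_or_lt with h7 | h7
    · rw [← h7]; positivity
    · nlinarith
  have h5 := hs_mul_le e (pk C) h4
  rw [h3, hs, h1, h2, ← nul_eq_hs] at h5
  simpa using h5

lemma nul_mono {A : Matrix κ ι M.N} {B : Matrix μ ι M.N} (h : kr A ≤ kr B) : nul A ≤ nul B :=
  ttr_le_nul (pk_conj A) (pk_mul_pk A) fun v => h (pk_mem A v)

lemma one_sub_pk [DecidableEq ι] (C : Matrix κ ι M.N) :
    (1 - pk C)ᴴ = 1 - pk C ∧ (1 - pk C) * (1 - pk C) = 1 - pk C :=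
  ⟨by rw [conjTranspose_sub, conjTranspose_one, pk_conj], by
    simp [Matrix.mul_sub, Matrix.sub_mul, pk_mul_pk]⟩

lemma rk_le_ttr {e : Matrix ι ι M.N} (h1 : eᴴ = e) (h2 : e * e = e) : rk e ≤ (ttr e).re := by
  classical
  have h3 := ttr_le_nul (C := e) (e := 1 - e) (by rw [conjTranspose_sub, conjTranspose_one, h1])
    (by simp [Matrix.mul_sub, Matrix.sub_mul, h2]) fun v => by
      rw [mem_kr, ← mop_mul, Matrix.mul_sub, Matrix.mul_one, h2, sub_self, mop_zero]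
  rw [ttr_sub, ttr_one] at h3
  simp only [Complex.sub_re, Complex.natCast_re] at h3
  rw [rk]; linarith

lemma rk_pk_le (C : Matrix κ ι M.N) : rk (pk C) ≤ nul C := rk_le_ttr (pk_conj C) (pk_mul_pk C)

lemma nul_le_rk_pk (C : Matrix κ ι M.N) : nul C ≤ rk (pk C) := by
  classical
  have h1 : (1 - pk C) * pk (pk C) = pk (pk C) := by
    rw [Matrix.sub_mul, Matrix.one_mul, mul_pk, sub_zero]
  have h2 : pk (pk C) * (1 - pk C) = pk (pk C) := by
    have := congrArg conjTranspose h1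
    rwa [conjTranspose_mul, pk_conj, (one_sub_pk C).1] at this
  have h3 := hs_mul_le (pk (pk C)) (1 - pk C) (norm_pk_le _)
  rw [h2, ← nul_eq_hs, hs, (one_sub_pk C).1, (one_sub_pk C).2, ttr_sub, ttr_one] at h3
  simp only [Complex.sub_re, Complex.natCast_re] at h3
  rw [rk, nul]; linarith

lemma nul_le_rk_of_inj {C : Matrix κ ι M.N} {X : Matrix μ ι M.N}
    (h : ∀ v ∈ kr C, mop X v = 0 → v = 0) : nul C ≤ rk (X * pk C) := by
  have h1 : nul (X * pk C) ≤ nul (pk C) :=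
    nul_mono fun v hv => mem_kr.2 (h _ (pk_mem C v) (by rw [← mop_mul]; exact hv))
  have h2 := nul_le_rk_pk C
  rw [rk] at h2 ⊢; linarith

lemma rk_le_nul_of_mem {C : Matrix κ ι M.N} {X : Matrix ι μ M.N} (h : ∀ v, mop X v ∈ kr C) :
    rk X ≤ nul C := by
  rw [← pk_mul_of_mem h]
  exact (rk_mul_le_left _ _).trans (rk_pk_le C)

/-- An injective map between kernels. -/
lemma nul_le_of_map {C : Matrix κ ι M.N} {C' : Matrix μ ν M.N} (Φ : Matrix ν ι M.N)
    (h1 : ∀ v ∈ kr C, mop Φ v ∈ kr C') (h2 : ∀ v ∈ kr C, mop Φ v = 0 → v = 0) :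
    nul C ≤ nul C' :=
  (nul_le_rk_of_inj h2).trans (rk_le_nul_of_mem fun v => by
    rw [mop_mul]; exact h1 _ (pk_mem C v))

/-- Rank-nullity, the inequality that holds in every model. -/
lemma nul_le_add {κ' μ' : Type} [Fintype κ'] [Fintype μ'] {Y : Matrix κ ι M.N}
    {E : Matrix κ' ι M.N} {Y' : Matrix μ' μ M.N} (B : Matrix μ ι M.N)
    (h1 : ∀ v ∈ kr Y, mop B v = 0 → v ∈ kr E) (h2 : ∀ v ∈ kr Y, mop B v ∈ kr Y') :
    nul Y ≤ nul E + nul Y' := by
  classical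
  have h3 : rk (B * pk Y) ≤ nul Y' := rk_le_nul_of_mem fun v => by
    rw [mop_mul]; exact h2 _ (pk_mem Y v)
  have h4 : rk (pk Y * pk (B * pk Y)) ≤ nul E := rk_le_nul_of_mem fun v => by
    rw [mop_mul]
    exact h1 _ (pk_mem Y _) (by rw [← mop_mul]; exact pk_mem (B * pk Y) v)
  have h5 : rk ((1 - pk Y) * pk (B * pk Y)) ≤ Fintype.card ι - nul Y := by
    refine (rk_mul_le_left _ _).trans ((rk_le_ttr (one_sub_pk Y).1 (one_sub_pk Y).2).trans ?_)
    rw [ttr_sub, ttr_one, nul]; simp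
  have h6 := rk_add_le (pk Y * pk (B * pk Y)) ((1 - pk Y) * pk (B * pk Y))
  rw [← Matrix.add_mul, add_sub_cancel, Matrix.one_mul] at h6
  have h7 := nul_le_rk_pk (B * pk Y)
  rw [rk] at h3
  linarith

/-- Rank-nullity, the inequality that needs dense range. -/
lemma add_le_nul {κ' μ' : Type} [Fintype κ'] [Fintype μ'] {Y : Matrix κ ι M.N}
    {E : Matrix κ' ι M.N} {Y' : Matrix μ' μ M.N} (B : Matrix μ ι M.N)
    (h1 : ∀ v ∈ kr E, v ∈ kr Y ∧ mop B v = 0)
    (h2 : ∀ y ∈ kr Y', (∀ x ∈ kr Y, ⟪y, mop B x⟫_ℂ = 0) → y = 0) :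
    nul E + nul Y' ≤ nul Y := by
  classical
  have h3 : nul Y' ≤ rk ((B * pk Y)ᴴ * pk Y') := nul_le_rk_of_inj fun y hy h => h2 y hy fun x hx => by
    rw [← pk_of_mem hx, ← mop_mul, ← inner_mop_conj, h, inner_zero_left]
  have h4 := h3.trans ((rk_mul_le_left _ _).trans (rk_conj _).le)
  have h5 : pk Y * pk E = pk E := pk_mul_of_mem fun v => (h1 _ (pk_mem E v)).1
  have h6 : pk E * pk Y = pk E := by
    have := congrArg conjTranspose h5
    rwa [conjTranspose_mul, pk_conj, pk_conj] at this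
  have h7 := ttr_le_nul (C := B * pk Y) (e := 1 - pk Y + pk E)
    (by rw [conjTranspose_add, (one_sub_pk Y).1, pk_conj])
    (by simp [Matrix.mul_sub, Matrix.sub_mul, Matrix.mul_add, Matrix.add_mul, pk_mul_pk, h5, h6])
    fun v => by
      rw [mem_kr, ← mop_mul, Matrix.mul_assoc, Matrix.mul_add, Matrix.mul_sub, Matrix.mul_one,
        pk_mul_pk, sub_self, zero_add, h5, mop_mul]
      exact (h1 _ (pk_mem E v)).2
  rw [ttr_add, ttr_sub, ttr_one] at h7
  simp only [Complex.sub_re, Complex.add_re, Complex.natCast_re] at h7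
  rw [rk] at h4
  simp only [nul] at h4 h7 ⊢
  linarith

lemma mem_kr_iff {C : Matrix κ ι M.N} {v : M.Hs ι} : v ∈ kr C ↔ ∀ k, mop C v k = 0 :=
  ⟨fun h k => by rw [mem_kr.1 h]; rfl, fun h => mem_kr.2 (PiLp.ext h)⟩

lemma mem_kr_fromRows {A : Matrix κ ι M.N} {B : Matrix μ ι M.N} {v : M.Hs ι} :
    v ∈ kr (fromRows A B) ↔ v ∈ kr A ∧ v ∈ kr B := by
  simp only [mem_kr_iff, Sum.forall, mop_apply, fromRows_apply_inl, fromRows_apply_inr]

end Pool.Agent.MP_c6eade_gt.H6
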