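import Pool.Agent.MP_c6eade_gt.H6.A

/-!
Matrices over a group algebra that are local for an action; approximation for local matrices
from approximation for the stabilisers.
-/

namespace Pool.Agent.MP_c6eade_gt.H6

open Filter Topology Matrix TM
open scoped InnerProductSpace

universe u v w

variable {H : Type u} [Group H] {V : Type w} [MulAction H V]
variable {C κ : Type} [Fintype C] [Fintype κ]

open Classical in
/-- The row with a single group element. -/
noncomputable def el (c : C) (g : H) : C → MonoidAlgebra ℂ H :=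
  Pi.single c (MonoidAlgebra.single g 1)

/-- A row applied to a column vector. -/
noncomputable def act {M : TM.{v}} (θ : H →* unitary M.N) (x : M.Hs C) :
    (C → MonoidAlgebra ℂ H) →ₗ[ℂ] M.H where
  toFun r := ∑ c, (ev θ (r c) : M.H →L[ℂ] M.H) (x c)
  map_add' r r' := by simp [Finset.sum_add_distrib]
  map_smul' a r := by simp [Finset.smul_sum]

lemma mop_ev {M : TM.{v}} (θ : H →* unitary M.N) (Y : Matrix κ C (MonoidAlgebra ℂ H))
    (x : M.Hs C) (l : κ) : mop (Y.map (ev θ)) x l = act θ x (Y l) := mop_apply _ _ _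

lemma act_el {M : TM.{v}} (θ : H →* unitary M.N) (x : M.Hs C) (c : C) (g : H) :
    act θ x (el c g) = ((θ g : M.N) : M.H →L[ℂ] M.H) (x c) := by
  classical
  change ∑ c', (ev θ (el c g c') : M.H →L[ℂ] M.H) (x c') = _
  rw [Finset.sum_eq_single c]
  · simp [el, ev_single]
  · intro c' _ h; simp [el, h]
  · simp

lemma act_el_one {M : TM.{v}} (θ : H →* unitary M.N) (x : M.Hs C) (c : C) :
    act θ x (el c 1) = x c := by
  rw [act_el, map_one]; rfl

lemma mem_kr_ev {M : TM.{v}} (θ : H →* unitary M.N) {Y : Matrix κ C (MonoidAlgebra ℂ H)}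
    {x : M.Hs C} : x ∈ kr (Y.map (ev θ)) ↔ ∀ l, act θ x (Y l) = 0 := by
  simp only [mem_kr_iff, mop_ev]

/-- Rows that are local at a point. -/
noncomputable def LR (H : Type u) [Group H] [MulAction H V] (p : C → V) (v : V) :
    Submodule ℂ (C → MonoidAlgebra ℂ H) :=
  Submodule.span ℂ {r | ∃ c g, g • p c = v ∧ r = el c g}

omit [Fintype C] in
lemma el_mem {p : C → V} {v : V} {c : C} {g : H} (h : g • p c = v) : el c g ∈ LR H p v :=
  Submodule.subset_span ⟨c, g, h, rfl⟩

variable {Q : ℕ → Type u} [∀ i, Group (Q i)] {π : ∀ i, H →* Q i}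

lemma tendsto_of_sub {K : Subgroup H} (hK : AP fun i => (π i).comp K.subtype)
    (B : Matrix κ C (MonoidAlgebra ℂ H))
    (hB : ∀ l c, ∃ y : MonoidAlgebra ℂ K, MonoidAlgebra.mapDomain K.subtype y = B l c) :
    Tendsto (fun i => dd (π i) B) atTop (𝓝 (dd (MonoidHom.id H) B)) := by
  choose B' hB' using hB
  have e : B = (Matrix.of B').map (MonoidAlgebra.mapDomain K.subtype) :=
    Matrix.ext fun l c => (hB' l c).symm
  have h := hK _ _ (Matrix.of B')
  rw [dd_congr (π := MonoidHom.id K) (π' := (MonoidHom.id H).comp K.subtype) (fun g => by simp),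
    dd_comp] at h
  simp only [dd_comp] at h
  rw [e]; exact h

omit [Fintype C] in
lemma entry_local {p : C → V} {v : V} {r : C → MonoidAlgebra ℂ H} (hr : r ∈ LR H p v)
    {o : V → V} {t : V → H} (ht : ∀ v, t v • o v = v) (ho : ∀ (g : H) v, o (g • v) = o v) (c : C) :
    (o (p c) ≠ o v → r c = 0) ∧ ∃ y : MonoidAlgebra ℂ (MulAction.stabilizer H (o v)),
      MonoidAlgebra.mapDomain (MulAction.stabilizer H (o v)).subtype y =
        MonoidAlgebra.single (t v)⁻¹ 1 * r c * MonoidAlgebra.single (t (p c)) 1 := by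
  classical
  induction hr using Submodule.span_induction with
  | mem r hr =>
    obtain ⟨c', g, hg, rfl⟩ := hr
    by_cases hc : c = c'
    · subst hc
      have h1 : o (p c) = o v := by rw [← hg, ho]
      refine ⟨fun h => absurd h1 h, MonoidAlgebra.single ⟨(t v)⁻¹ * g * t (p c), ?_⟩ 1, ?_⟩
      · rw [MulAction.mem_stabilizer_iff, mul_smul, mul_smul, inv_smul_eq_iff, ht, ← h1, ht, hg]
      · simp [el, MonoidAlgebra.single_mul_single]
    · exact ⟨fun _ => by simp [el, hc], 0, by simp [el, hc]⟩
  | zero => exact ⟨fun _ => rfl, 0, by simp⟩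
  | add r r' _ _ h h' =>
    obtain ⟨y, hy⟩ := h.2
    obtain ⟨y', hy'⟩ := h'.2
    exact ⟨fun hc => by simp [h.1 hc, h'.1 hc], y + y', by
      rw [MonoidAlgebra.mapDomain_add, hy, hy', Pi.add_apply, mul_add, add_mul]⟩
  | smul a r _ h =>
    obtain ⟨y, hy⟩ := h.2
    exact ⟨fun hc => by simp [h.1 hc], a • y, by
      rw [MonoidAlgebra.mapDomain_smul, hy, Pi.smul_apply, mul_smul_comm, smul_mul_assoc]⟩

/-- Lower approximation for local matrices. -/
lemma lower_local (hS : ∀ v : V, AP fun i => (π i).comp (MulAction.stabilizer H v).subtype)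
    {p : C → V} {w : κ → V} {Y : Matrix κ C (MonoidAlgebra ℂ H)} (hY : ∀ l, Y l ∈ LR H p (w l))
    {ε : ℝ} (hε : 0 < ε) : ∀ᶠ i in atTop, dd (MonoidHom.id H) Y - ε < dd (π i) Y := by
  classical
  let o : V → V := fun v => (Quotient.mk (MulAction.orbitRel H V) v).out
  have ho : ∀ (g : H) v, o (g • v) = o v := fun g v =>
    congrArg Quotient.out (Quotient.sound (show g • v ∈ MulAction.orbit H v from ⟨g, rfl⟩))
  have h0 : ∀ v, ∃ g : H, g • o v = v := fun v =>
    (MulAction.orbitRel H V).symm (Quotient.mk_out (s := MulAction.orbitRel H V) v)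
  choose t ht using h0
  let s : Finset V := Finset.univ.image fun c => o (p c)
  let f : Fin s.card → V := fun k => s.equivFin.symm k
  have hf : Function.Injective f := fun k k' h => s.equivFin.symm.injective (Subtype.ext h)
  have hfs : ∀ c, ∃ k, f k = o (p c) := fun c =>
    ⟨s.equivFin ⟨_, Finset.mem_image_of_mem _ (Finset.mem_univ c)⟩, by simp [f]⟩
  let Y' : Fin s.card → Matrix κ C (MonoidAlgebra ℂ H) := fun k => Matrix.of fun l c =>
    if o (w l) = f k ∧ o (p c) = f k then
      MonoidAlgebra.single (t (w l))⁻¹ 1 * Y l c * MonoidAlgebra.single (t (p c)) 1 else 0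
  have h1 : ∀ k, Tendsto (fun i => dd (π i) (Y' k)) atTop (𝓝 (dd (MonoidHom.id H) (Y' k))) := by
    intro k
    refine tendsto_of_sub (hS (f k)) _ fun l c => ?_
    simp only [Y', Matrix.of_apply]
    split_ifs with h
    · rw [← h.1]; exact (entry_local (hY l) ht ho c).2
    · exact ⟨0, by simp⟩
  have h2 : ∀ {M : TM.{u}} (θ : H →* unitary M.N),
      rk (Y.map (ev θ)) ≤ ∑ k, rk ((Y' k).map (ev θ)) := by
    intro M θ
    have e : Y.map (ev θ) = ∑ k, diagonal (fun l => (θ (t (w l)) : M.N)) *
        ((Y' k).map (ev θ) * diagonal fun c => (θ (t (p c))⁻¹ : M.N)) := by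
      refine Matrix.ext fun l c => ?_
      obtain ⟨k, hk⟩ := hfs c
      rw [Matrix.sum_apply, Finset.sum_eq_single k]
      · simp only [diagonal_mul, mul_diagonal, Matrix.map_apply, Y', Matrix.of_apply]
        split_ifs with h
        · rw [map_mul, map_mul, ev_single, ev_single, one_smul, one_smul, mul_assoc,
            ← Submonoid.coe_mul, ← map_mul θ, mul_inv_cancel, map_one, OneMemClass.coe_one, mul_one,
            ← mul_assoc, ← Submonoid.coe_mul, ← map_mul θ, mul_inv_cancel, map_one,
            OneMemClass.coe_one, one_mul]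
        · rw [(entry_local (hY l) ht ho c).1 fun h' => h ⟨h'.symm.trans hk.symm, hk.symm⟩]
          simp
      · intro k' _ hk'
        simp only [diagonal_mul, mul_diagonal, Matrix.map_apply, Y', Matrix.of_apply]
        rw [if_neg fun h => hk' (hf (h.2.symm.trans hk.symm))]
        simp
      · simp
    rw [e]
    exact (rk_sum_le _).trans (Finset.sum_le_sum fun k _ =>
      (rk_mul_le_right _ _).trans (rk_mul_le_left _ _))
  have h3 : ∀ {M : TM.{u}} (θ : H →* unitary M.N),
      ∑ k, rk ((Y' k).map (ev θ)) ≤ rk (Y.map (ev θ)) := by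
    intro M θ
    have e : blockDiagonal (fun k => (Y' k).map (ev θ)) =
        (Matrix.of fun (q : κ × Fin s.card) (l : κ) =>
          if q.1 = l ∧ o (w l) = f q.2 then (θ (t (w l))⁻¹ : M.N) else 0) * (Y.map (ev θ) *
        Matrix.of fun (c : C) (q : C × Fin s.card) =>
          if q.1 = c ∧ o (p c) = f q.2 then (θ (t (p c)) : M.N) else 0) := by
      refine Matrix.ext fun ⟨l, k⟩ ⟨c, k'⟩ => ?_
      rw [Matrix.mul_apply, Finset.sum_eq_single l, Matrix.mul_apply, Finset.sum_eq_single c]
      · simp only [blockDiagonal_apply, Matrix.map_apply, Y', Matrix.of_apply, true_and]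
        by_cases hk : k = k'
        · subst hk
          by_cases a1 : o (w l) = f k <;> by_cases a2 : o (p c) = f k <;>
            simp [a1, a2, ev_single, mul_assoc]
        · rw [if_neg hk]
          split_ifs with a1 a2
          · rw [(entry_local (hY l) ht ho c).1 fun h' => hk (hf (a1.symm.trans (h'.symm.trans a2)))]
            simp
          · simp
          · simp
          · simp
      · intro c' _ h; simp [h.symm]
      · simp
      · intro l' _ h; simp [h.symm]
      · simp
    rw [← rk_blockDiagonal, e]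
    exact (rk_mul_le_right _ _).trans (rk_mul_le_left _ _)
  have h4 := tendsto_finsetSum Finset.univ fun k _ =>
    (h1 k).const_sub (Fintype.card C : ℝ)
  filter_upwards [h4.eventually (gt_mem_nhds (lt_add_of_pos_right _ hε))] with i hi
  have a1 := h2 ((rho (Q i)).comp (π i))
  have a2 := h3 ((rho H).comp (MonoidHom.id H))
  simp only [rk] at a1 a2
  simp only [dd] at hi ⊢
  linarith

end Pool.Agent.MP_c6eade_gt.H6
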