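import Pool.Agent.MP_c6eade_gt.H6.B

/-!
Gluing local conditions along the edges of a tree with finite edge stabilisers.
-/

namespace Pool.Agent.MP_c6eade_gt.H6

open Filter Topology Matrix TM
open scoped InnerProductSpace

universe u v w

variable {H : Type u} [Group H] {V : Type w} [MulAction H V]
variable {C κ : Type} [Fintype C] [Fintype κ]

/-- The regular model. -/
noncomputable abbrev rg (H : Type u) [Group H] : H →* unitary (reg H).N :=
  (rho H).comp (MonoidHom.id H)

/-- Coordinates of a vector. -/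
def co (x : (reg H).Hs C) (c : C) (h : H) : ℂ := (show L2 H from x c) h

/-- Value of a row on a vector at a point. -/
noncomputable def av (x : (reg H).Hs C) (h : H) : (C → MonoidAlgebra ℂ H) →ₗ[ℂ] ℂ :=
  (lp.evalCLM ℂ (fun _ : H => ℂ) 2 h : L2 H →L[ℂ] ℂ).toLinearMap.comp (act (rg H) x)

lemma av_el (x : (reg H).Hs C) (h : H) (c : C) (g : H) : av x h (el c g) = co x c (h * g) := by
  change (show L2 H from act (rg H) x (el c g)) h = _
  rw [act_el]; rfl

lemma co_mop (Y : Matrix κ C (MonoidAlgebra ℂ H)) (x : (reg H).Hs C) (l : κ) (h : H) :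
    co (mop (Y.map (ev (rg H))) x) l h = av x h (Y l) := by
  rw [co, mop_ev]; rfl

lemma mem_kr_av {Y : Matrix κ C (MonoidAlgebra ℂ H)} {x : (reg H).Hs C} :
    x ∈ kr (Y.map (ev (rg H))) ↔ ∀ l h, av x h (Y l) = 0 := by
  rw [mem_kr_ev]
  exact forall_congr' fun l => ⟨fun h g => congrArg (fun z : L2 H => z g) h,
    fun h => lp.ext (funext h)⟩

omit [Fintype C] in
lemma co_ext {x y : (reg H).Hs C} (h : ∀ c g, co x c g = co y c g) : x = y :=
  PiLp.ext fun c => lp.ext (funext (h c))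

open Classical in
/-- The cut-off of a vector. -/
noncomputable def cut (p : C → V) (U : Set V) (x : (reg H).Hs C) : (reg H).Hs C :=
  WithLp.toLp 2 fun c => show L2 H from ⟨fun h => if h • p c ∈ U then co x c h else 0,
    (lp.memℓp (show L2 H from x c)).mono' fun h => by
      split_ifs
      · exact le_rfl
      · simp⟩

omit [Fintype C] in
open Classical in
lemma co_cut (p : C → V) (U : Set V) (x : (reg H).Hs C) (c : C) (h : H) :
    co (cut p U x) c h = if h • p c ∈ U then co x c h else 0 := rfl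

open Classical in
lemma av_cut {p : C → V} (U : Set V) (x : (reg H).Hs C) {v : V} {r : C → MonoidAlgebra ℂ H}
    (hr : r ∈ LR H p v) (h : H) : av (cut p U x) h r = if h • v ∈ U then av x h r else 0 := by
  induction hr using Submodule.span_induction with
  | mem r hr =>
    obtain ⟨c, g, hg, rfl⟩ := hr
    rw [av_el, av_el, co_cut, mul_smul, hg]
  | zero => simp
  | add r r' _ _ a a' => rw [map_add, map_add, a, a']; split_ifs <;> simp
  | smul a r _ b => rw [map_smul, map_smul, b]; split_ifs <;> simp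

lemma cut_mem {p : C → V} {w : κ → V} {Y : Matrix κ C (MonoidAlgebra ℂ H)}
    (hY : ∀ l, Y l ∈ LR H p (w l)) (U : Set V) {x : (reg H).Hs C}
    (hx : x ∈ kr (Y.map (ev (rg H)))) : cut p U x ∈ kr (Y.map (ev (rg H))) :=
  mem_kr_av.2 fun l h => by rw [av_cut U x (hY l), mem_kr_av.1 hx, ite_self]

lemma exists_translate {Y : Matrix κ C (MonoidAlgebra ℂ H)} {x : (reg H).Hs C}
    (hx : x ∈ kr (Y.map (ev (rg H)))) (k : H) :
    ∃ x' ∈ kr (Y.map (ev (rg H))), ∀ c h, co x' c h = co x c (k * h) :=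
  ⟨_, diag_mem_kr (M := reg H) (u := permOp (Equiv.mulLeft k)) ⟨k, rfl⟩ hx, fun _ _ => rfl⟩

open Classical in
/-- Basis vectors. -/
noncomputable def ee (c : C) (h : H) : (reg H).Hs C := PiLp.single 2 c (show L2 H from dl h)

lemma inner_ee (c : C) (h : H) (x : (reg H).Hs C) : ⟪ee c h, x⟫_ℂ = co x c h := by
  classical
  rw [PiLp.inner_apply, Finset.sum_eq_single c]
  · simp only [ee, PiLp.single_eq_same]
    exact inner_dl h (show L2 H from x c)
  · intro c' _ hc; simp [ee, hc]
  · simp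

omit [Fintype C] in
open Classical in
lemma co_ee (c c' : C) (h h' : H) : co (ee c h) c' h' = if (c', h') = (c, h) then 1 else 0 := by
  by_cases hc : c' = c
  · subst hc
    simpa [co, ee] using dl_apply h h'
  · simp only [co, ee, hc, Prod.mk.injEq, false_and, if_false, ne_eq, not_false_eq_true,
      PiLp.single_eq_of_ne]
    rfl

/-- The half trees of an edge. -/
lemma exists_half {T : SimpleGraph V} (hT : T.IsAcyclic) {a b : V} (hab : T.Adj a b) :
    ∃ U : Set V, a ∈ U ∧ b ∉ U ∧ ∀ u v, T.Adj u v → ¬(u = a ∧ v = b) → ¬(u = b ∧ v = a) →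
      (u ∈ U ↔ v ∈ U) := by
  refine ⟨{v | (T.deleteEdges {s(a, b)}).Reachable a v}, SimpleGraph.Reachable.refl a,
    SimpleGraph.isBridge_iff.1 (SimpleGraph.isAcyclic_iff_forall_adj_isBridge.1 hT hab),
    fun u v huv h1 h2 => ?_⟩
  have h : (T.deleteEdges {s(a, b)}).Adj u v := by
    rw [SimpleGraph.deleteEdges_adj]
    refine ⟨huv, fun h => ?_⟩
    rcases Sym2.eq_iff.1 (Set.mem_singleton_iff.1 h) with h | h
    · exact h1 h
    · exact h2 h
  exact ⟨fun h' => h'.trans h.reachable, fun h' => h'.trans h.symm.reachable⟩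

/-- The difference across the matching. -/
noncomputable def Bm (H : Type u) [Group H] (σ : C → C) : Matrix C C (MonoidAlgebra ℂ H) :=
  Matrix.of fun c => el c 1 - el (σ c) 1

lemma act_Bm {M : TM.{v}} (θ : H →* unitary M.N) (σ : C → C) (x : M.Hs C) (c : C) :
    mop ((Bm H σ).map (ev θ)) x c = x c - x (σ c) := by
  have e : Bm H σ c = el c 1 - el (σ c) 1 := rfl
  rw [mop_ev, e, map_sub, act_el_one, act_el_one]

lemma flow {T : SimpleGraph V} (hT : T.IsAcyclic)
    (hadj : ∀ (g : H) u v, T.Adj u v → T.Adj (g • u) (g • v)) {p : C → V} {σ : C → C}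
    (hσ : ∀ c, σ (σ c) = c) (hp : ∀ c, σ c = c ∨ T.Adj (p c) (p (σ c))) {a b : V}
    (hab : T.Adj a b) {F : Finset (C × H)}
    (hF : ∀ q, q ∈ F ↔ q.2 • p q.1 = a ∧ q.2 • p (σ q.1) = b) :
    ∃ U : Set V, ∀ x y : (reg H).Hs C, (∀ c, x (σ c) = x c) → (∀ c, y (σ c) = - y c) →
      ⟪mop ((Bm H σ).map (ev (rg H))) (cut p U x), y⟫_ℂ =
        2 * ∑ q ∈ F, starRingEnd ℂ (co x q.1 q.2) * co y q.1 q.2 := by
  classical
  obtain ⟨U, h1, h2, h3⟩ := exists_half hT hab
  refine ⟨U, fun x y hx hy => ?_⟩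
  have hx' : ∀ c h, co x (σ c) h = co x c h := fun c h => by rw [co, hx]; rfl
  have hy' : ∀ c h, co y (σ c) h = - co y c h := fun c h => by rw [co, hy]; rfl
  have e : mop ((Bm H σ).map (ev (rg H))) (cut p U x) =
      ∑ q ∈ F, co x q.1 q.2 • (ee q.1 q.2 - ee (σ q.1) q.2) := by
    refine co_ext fun c h => ?_
    have e1 : co (mop ((Bm H σ).map (ev (rg H))) (cut p U x)) c h =
        co (cut p U x) c h - co (cut p U x) (σ c) h := by
      rw [co, act_Bm]; rfl
    have e2 : ∀ q : C × H, ((c, h) = (σ q.1, q.2)) = ((σ c, h) = q) := fun q => by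
      refine propext ⟨fun h' => ?_, fun h' => ?_⟩
      · rw [(Prod.mk.inj h').1, hσ, (Prod.mk.inj h').2]
      · rw [← h', hσ]
    rw [e1, ← inner_ee c h (∑ q ∈ F, _), inner_sum]
    simp only [inner_smul_right, inner_sub_right, inner_ee, co_ee, e2, mul_sub, mul_ite, mul_one,
      mul_zero, Finset.sum_sub_distrib, Prod.mk.eta, Finset.sum_ite_eq, hF, co_cut, hx', hσ]
    rcases hp c with hc | hc
    · rw [hc]; simp
    · by_cases k1 : h • p c = a ∧ h • p (σ c) = b
      · have k2 : ¬(h • p (σ c) = a ∧ h • p c = b) := fun k => hab.ne (k1.1.symm.trans k.2)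
        rw [if_pos k1, if_neg k2, if_pos (k1.1 ▸ h1), if_neg (k1.2 ▸ h2)]
      · by_cases k2 : h • p (σ c) = a ∧ h • p c = b
        · rw [if_neg k1, if_pos k2, if_neg (k2.2 ▸ h2), if_pos (k2.1 ▸ h1)]
        · rw [if_neg k1, if_neg k2]
          simp [h3 _ _ (hadj h _ _ hc) k1 fun k => k2 k.symm]
  rw [e, sum_inner, Finset.mul_sum]
  refine Finset.sum_congr rfl fun q _ => ?_
  rw [inner_smul_left, inner_sub_left, inner_ee, inner_ee, hy']
  ring

lemma finite_pairs {T : SimpleGraph V}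
    (hfin : ∀ a b, T.Adj a b → {g : H | g • a = a ∧ g • b = b}.Finite) (p : C → V) (σ : C → C)
    {a b : V} (hab : T.Adj a b) :
    {q : C × H | q.2 • p q.1 = a ∧ q.2 • p (σ q.1) = b}.Finite := by
  have h : ∀ c, {g : H | g • p c = a ∧ g • p (σ c) = b}.Finite := by
    intro c
    rcases Set.eq_empty_or_nonempty {g : H | g • p c = a ∧ g • p (σ c) = b} with h | ⟨g₀, h₀⟩
    · rw [h]; exact Set.finite_empty
    · refine ((hfin a b hab).image fun g => g * g₀).subset fun g hg => ⟨g * g₀⁻¹, ⟨?_, ?_⟩, by simp⟩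
      · rw [mul_smul, ← h₀.1, inv_smul_smul, hg.1, h₀.1]
      · rw [mul_smul, ← h₀.2, inv_smul_smul, hg.2, h₀.2]
  refine (Set.finite_iUnion fun c => (h c).image (Prod.mk c)).subset fun q hq => ?_
  exact Set.mem_iUnion.2 ⟨q.1, q.2, hq, rfl⟩

variable {Q : ℕ → Type u} [∀ i, Group (Q i)] {π : ∀ i, H →* Q i}

/-- Lower approximation for local conditions glued along edges. -/
theorem core {T : SimpleGraph V} (hT : T.IsAcyclic)
    (hadj : ∀ (g : H) u v, T.Adj u v → T.Adj (g • u) (g • v))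
    (hfin : ∀ a b, T.Adj a b → {g : H | g • a = a ∧ g • b = b}.Finite)
    (hπ : ∀ g, g ≠ 1 → ∀ᶠ i in atTop, π i g ≠ 1)
    (hS : ∀ v : V, AP fun i => (π i).comp (MulAction.stabilizer H v).subtype)
    {p : C → V} {σ : C → C} (hσ : ∀ c, σ (σ c) = c)
    (hp : ∀ c, σ c = c ∨ T.Adj (p c) (p (σ c))) {w : κ → V}
    {M : Matrix κ C (MonoidAlgebra ℂ H)} (hM : ∀ l, M l ∈ LR H p (w l)) {ε : ℝ} (hε : 0 < ε) :
    ∀ᶠ i in atTop, dd (MonoidHom.id H) (fromRows M (Bm H σ)) - ε <
      dd (π i) (fromRows M (Bm H σ)) := by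
  classical
  set E := fromRows M (Bm H σ) with hE
  have hE' : ∀ {N : TM.{u}} (θ : H →* unitary N.N) (x : N.Hs C), x ∈ kr (E.map (ev θ)) ↔
      x ∈ kr (M.map (ev θ)) ∧ mop ((Bm H σ).map (ev θ)) x = 0 := fun θ x => by
    rw [hE, fromRows_map, mem_kr_fromRows]; rfl
  have hB : ∀ {N : TM.{u}} (θ : H →* unitary N.N) (x : N.Hs C),
      mop ((Bm H σ).map (ev θ)) x = 0 → ∀ c, x (σ c) = x c := fun θ x hx c => by
    have := act_Bm θ σ x c
    rw [hx] at this
    exact (sub_eq_zero.1 this.symm).symm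
  let D := {c : C // T.Adj (p c) (p (σ c))}
  let F : D → Finset (C × H) := fun d => (finite_pairs hfin p σ d.2).toFinset
  have hF : ∀ d q, q ∈ F d ↔ q.2 • p q.1 = p d.1 ∧ q.2 • p (σ q.1) = p (σ d.1) := fun d q =>
    Set.Finite.mem_toFinset _
  let W : ∀ d : D, Submodule ℂ (F d → ℂ) := fun d => ⨅ x ∈ kr (E.map (ev (rg H))),
    LinearMap.ker (Fintype.linearCombination ℂ fun q : F d => co x q.1.1 q.1.2)
  have hW : ∀ d φ, φ ∈ W d ↔ ∀ x ∈ kr (E.map (ev (rg H))),
      ∑ q : F d, φ q * co x q.1.1 q.1.2 = 0 := fun d φ => by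
    simp only [W, Submodule.mem_iInf, LinearMap.mem_ker, Fintype.linearCombination_apply,
      smul_eq_mul]
  let β := fun d => Module.finBasis ℂ (W d)
  let Z : (C → C) → Matrix (Σ d : D, Fin (Module.finrank ℂ (W d))) C (MonoidAlgebra ℂ H) :=
    fun τ => Matrix.of fun l => ∑ q : F l.1, (β l.1 l.2).1 q • el (τ q.1.1) q.1.2
  have hZ : ∀ τ l, Z τ l = ∑ q : F l.1, (β l.1 l.2).1 q • el (τ q.1.1) q.1.2 := fun _ _ => rfl
  let P : Matrix C C (MonoidAlgebra ℂ H) := Matrix.of fun c => el c 1 + el (σ c) 1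
  have hP : ∀ c, P c = el c 1 + el (σ c) 1 := fun _ => rfl
  set Y := fromRows M (fromRows (Z fun c => c) (Z σ)) with hY
  set Y' := fromRows P (fromRows (Z fun c => c) (Z σ)) with hY'
  have hloc : ∀ l, Y l ∈ LR H p (Sum.elim w (Sum.elim (fun l => p l.1.1) fun l => p (σ l.1.1)) l) := by
    rintro (l | l | l)
    · exact hM l
    · exact Submodule.sum_mem _ fun q _ => Submodule.smul_mem _ _ (el_mem ((hF _ _).1 q.2).1)
    · exact Submodule.sum_mem _ fun q _ => Submodule.smul_mem _ _ (el_mem ((hF _ _).1 q.2).2)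
  have hav : ∀ τ l (x : (reg H).Hs C) h, av x h (Z τ l) =
      ∑ q : F l.1, (β l.1 l.2).1 q * co x (τ q.1.1) (h * q.1.2) := fun τ l x h => by
    rw [hZ, map_sum]
    exact Finset.sum_congr rfl fun q _ => by rw [map_smul, av_el, smul_eq_mul]
  have hEY : ∀ x ∈ kr (E.map (ev (rg H))), x ∈ kr (Y.map (ev (rg H))) := by
    intro x hx
    have h1 := (hE' _ x).1 hx
    have h2 : ∀ l h, av x h (Z (fun c => c) l) = 0 := fun l h => by
      obtain ⟨x', hx', e⟩ := exists_translate hx h
      rw [hav fun c => c]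
      simpa only [e] using (hW _ _).1 (β l.1 l.2).2 x' hx'
    rw [hY, fromRows_map, fromRows_map, mem_kr_fromRows, mem_kr_fromRows]
    refine ⟨h1.1, mem_kr_av.2 h2, mem_kr_av.2 fun l h => ?_⟩
    rw [← h2 l h, hav σ, hav fun c => c]
    simp only [co, hB _ x h1.2]
  have k1 : dd (MonoidHom.id H) E + dd (MonoidHom.id H) Y' ≤ dd (MonoidHom.id H) Y := by
    refine add_le_nul ((Bm H σ).map (ev (rg H))) (fun x hx => ⟨hEY x hx, ((hE' _ x).1 hx).2⟩)
      fun y hy hy0 => ?_
    rw [hY', fromRows_map, fromRows_map, mem_kr_fromRows, mem_kr_fromRows] at hy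
    have h1 : ∀ c, y (σ c) = -y c := fun c => by
      have := (mem_kr_ev _).1 hy.1 c
      rw [hP, map_add, act_el_one, act_el_one] at this
      exact eq_neg_of_add_eq_zero_right this
    refine co_ext fun c h => ?_
    change _ = (0 : ℂ)
    rcases hp c with hc | hc
    · have h2 := h1 c
      rw [hc] at h2
      have h3 : y c = 0 := by
        have : (2 : ℂ) • y c = 0 := by rw [two_smul]; exact add_eq_zero_iff_eq_neg.2 h2
        exact (smul_eq_zero.1 this).resolve_left two_ne_zero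
      rw [co, h3]; rfl
    · let d : D := ⟨c, hc⟩
      have h2 : (fun q : F d => starRingEnd ℂ (co y q.1.1 (h * q.1.2))) ∈ W d := by
        refine (hW _ _).2 fun x hx => ?_
        obtain ⟨x', hx', e⟩ := exists_translate hx h⁻¹
        obtain ⟨U, hU⟩ := flow hT hadj hσ hp (hadj h _ _ hc)
          (F := (F d).map ((Equiv.refl C).prodCongr (Equiv.mulLeft h)).toEmbedding) fun q => by
            rw [Finset.mem_map_equiv, hF]
            simp [d, mul_smul, inv_smul_eq_iff]
        have h3 := hU x' y (hB _ x' ((hE' _ x').1 hx').2) h1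
        rw [← inner_conj_symm, hy0 _ (cut_mem hloc U (hEY x' hx')), map_zero, Finset.sum_map,
          eq_comm, mul_eq_zero_iff_left two_ne_zero] at h3
        have h4 := congrArg (starRingEnd ℂ) h3
        rw [map_sum, map_zero, ← Finset.sum_coe_sort] at h4
        rw [← h4]
        refine Finset.sum_congr rfl fun q _ => ?_
        simp [e, mul_comm]
      have h3 : (Fintype.linearCombination ℂ fun q : F d => co y q.1.1 (h * q.1.2)).comp
          (W d).subtype = 0 := (β d).ext fun j => by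
        have := mem_kr_av.1 hy.2.1 ⟨d, j⟩ h
        rw [hav fun c => c] at this
        simpa [Fintype.linearCombination_apply] using this
      have h4 := LinearMap.congr_fun h3 ⟨_, h2⟩
      simp only [LinearMap.comp_apply, Submodule.subtype_apply, Fintype.linearCombination_apply,
        smul_eq_mul, Complex.conj_mul', LinearMap.zero_apply] at h4
      have h5 : ∑ q : F d, ‖co y q.1.1 (h * q.1.2)‖ ^ 2 = 0 := by exact_mod_cast h4
      have h6 := (Finset.sum_eq_zero_iff_of_nonneg fun q _ => by positivity).1 h5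
        ⟨(c, 1), (hF _ _).2 (by simp [d])⟩ (Finset.mem_univ _)
      simpa using h6
  have k2 : ∀ i, dd (π i) Y ≤ dd (π i) E + dd (π i) Y' := by
    intro i
    refine nul_le_add ((Bm H σ).map (ev ((rho (Q i)).comp (π i)))) (fun x hx h0 => ?_)
      fun x hx => ?_
    · rw [hY, fromRows_map, mem_kr_fromRows] at hx
      exact (hE' _ x).2 ⟨hx.1, h0⟩
    · rw [hY, fromRows_map, fromRows_map, mem_kr_fromRows, mem_kr_fromRows] at hx
      rw [hY', fromRows_map, fromRows_map, mem_kr_fromRows, mem_kr_fromRows]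
      have a1 := (mem_kr_ev _).1 hx.2.1
      have a2 := (mem_kr_ev _).1 hx.2.2
      simp only [hZ, map_sum, map_smul, act_el] at a1 a2
      refine ⟨(mem_kr_ev _).2 fun c => ?_, (mem_kr_ev _).2 fun l => ?_,
        (mem_kr_ev _).2 fun l => ?_⟩
      · rw [hP, map_add, act_el_one, act_el_one, act_Bm, act_Bm, hσ]; abel
      · simp only [hZ, map_sum, map_smul, act_el, act_Bm, map_sub, smul_sub,
          Finset.sum_sub_distrib, a1, a2, sub_self]
      · simp only [hZ, map_sum, map_smul, act_el, act_Bm, map_sub, smul_sub,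
          Finset.sum_sub_distrib, hσ, a1, a2, sub_self]
  filter_upwards [lower_local hS hloc (half_pos hε), dd_usc hπ Y' (half_pos hε)] with i a1 a2
  have := k2 i
  linarith

end Pool.Agent.MP_c6eade_gt.H6
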