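import Pool.Agent.MP_c6eade_gt.H6.C

/-!
Approximation passes from the vertex stabilisers of an action on a tree with finite edge
stabilisers to the acting group.
-/

namespace Pool.Agent.MP_c6eade_gt.H6

open Filter Topology Matrix TM
open scoped InnerProductSpace

universe u v w

variable {H : Type u} [Group H] {V : Type w} [MulAction H V]
variable {Q : ℕ → Type u} [∀ i, Group (Q i)] {π : ∀ i, H →* Q i}

lemma exists_enum {ι κ : Type} [Fintype ι] [Fintype κ] (A : Matrix κ ι (MonoidAlgebra ℂ H)) :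
    ∃ (n : ℕ) (γ : Fin n → H) (a : κ → ι × Fin n → ℂ), ∀ k, A k = ∑ q, a k q • el q.1 (γ q.2) := by
  classical
  let S : Finset H := Finset.univ.biUnion fun q : κ × ι => (A q.1 q.2).coeff.support
  refine ⟨S.card, fun j => S.equivFin.symm j, fun k q => (A k q.1).coeff (S.equivFin.symm q.2),
    fun k => funext fun i => ?_⟩
  rw [Finset.sum_apply, Fintype.sum_prod_type, Finset.sum_eq_single i]
  · simp only [el, Pi.smul_apply, Pi.single_eq_same]
    rw [S.equivFin.symm.sum_comp fun g : S => (A k i).coeff g • MonoidAlgebra.single (g : H) (1 : ℂ),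
      Finset.sum_coe_sort S fun g => (A k i).coeff g • MonoidAlgebra.single g (1 : ℂ)]
    conv_lhs => rw [← MonoidAlgebra.sum_coeff_single (A k i)]
    rw [Finsupp.sum_of_support_subset (s := S) _
      (Finset.subset_biUnion_of_mem (fun q : κ × ι => (A q.1 q.2).coeff.support)
        (Finset.mem_univ (k, i))) _ (by simp)]
    simp
  · intro i' _ hi; simp [el, hi.symm]
  · simp

theorem ap_of_tree {T : SimpleGraph V} (hT : T.IsTree)
    (hadj : ∀ (g : H) u v, T.Adj u v → T.Adj (g • u) (g • v))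
    (hfin : ∀ a b, T.Adj a b → {g : H | g • a = a ∧ g • b = b}.Finite)
    (hπ : ∀ g, g ≠ 1 → ∀ᶠ i in atTop, π i g ≠ 1)
    (hS : ∀ v : V, AP fun i => (π i).comp (MulAction.stabilizer H v).subtype) : AP π := by
  classical
  refine ap_of_lower hπ fun ι κ _ _ A ε hε => ?_
  obtain ⟨n, γ, a, hA⟩ := exists_enum A
  obtain ⟨v₀⟩ := hT.connected.nonempty
  let wk : ∀ j, T.Walk (γ j • v₀) v₀ := fun j => (hT.connected.preconnected _ _).some
  let I := ι × Σ j : Fin n, Fin (wk j).length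
  let C := ι ⊕ I × Bool
  let p : C → V := Sum.elim (fun _ => v₀) fun z => (wk z.1.2.1).getVert (z.1.2.2 + z.2.toNat)
  let σ : C → C := Sum.map (fun i => i) fun z => (z.1, !z.2)
  let ν : ι × Fin n → ℕ → C → MonoidAlgebra ℂ H := fun q t => match t with
    | 0 => el (Sum.inl q.1) (γ q.2)
    | s + 1 => if h : s < (wk q.2).length then el (Sum.inr ((q.1, ⟨q.2, ⟨s, h⟩⟩), true)) 1 else 0
  have hν : ∀ q t, ν q t ∈ LR H p ((wk q.2).getVert t) := by
    rintro q (_ | s)
    · exact el_mem (wk q.2).getVert_zero.symm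
    · simp only [ν]
      split_ifs
      · exact el_mem (one_smul _ _)
      · exact zero_mem _
  let M₁ : Matrix κ C (MonoidAlgebra ℂ H) := Matrix.of fun k => ∑ q, a k q • ν q (wk q.2).length
  let M₂ : Matrix I C (MonoidAlgebra ℂ H) := Matrix.of fun z =>
    el (Sum.inr (z, false)) 1 - ν (z.1, z.2.1) z.2.2
  have hM₁ : ∀ k, M₁ k = ∑ q, a k q • ν q (wk q.2).length := fun _ => rfl
  have hM₂ : ∀ z, M₂ z = el (Sum.inr (z, false)) 1 - ν (z.1, z.2.1) z.2.2 := fun _ => rfl
  have h1 := core (π := π) hT.isAcyclic hadj hfin hπ hS (p := p) (σ := σ)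
    (by rintro (i | ⟨z, b⟩) <;> simp [σ])
    (by
      rintro (i | ⟨z, _ | _⟩)
      · exact Or.inl rfl
      · exact Or.inr ((wk _).adj_getVert_succ z.2.2.2)
      · exact Or.inr ((wk _).adj_getVert_succ z.2.2.2).symm)
    (w := Sum.elim (fun _ => v₀) fun z : I => (wk z.2.1).getVert z.2.2) (M := fromRows M₁ M₂)
    (by
      rintro (k | z)
      · refine Submodule.sum_mem _ fun q _ => Submodule.smul_mem _ _ ?_
        have := hν q (wk q.2).length
        rwa [SimpleGraph.Walk.getVert_length] at this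
      · exact Submodule.sub_mem _ (el_mem (one_smul _ _)) (hν (z.1, z.2.1) z.2.2)) hε
  have hE : ∀ {N : TM.{u}} (θ : H →* unitary N.N) (x : N.Hs C),
      x ∈ kr ((fromRows (fromRows M₁ M₂) (Bm H σ)).map (ev θ)) ↔
        ((∀ k, ∑ q, a k q • act θ x (ν q (wk q.2).length) = 0) ∧
          ∀ z : I, x (Sum.inr (z, false)) = act θ x (ν (z.1, z.2.1) z.2.2)) ∧
        ∀ c, x c = x (σ c) := by
    intro N θ x
    rw [fromRows_map, fromRows_map, mem_kr_fromRows, mem_kr_fromRows, mem_kr_ev, mem_kr_ev,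
      mem_kr_iff]
    simp only [hM₁, hM₂, map_sum, map_smul, map_sub, act_el_one, act_Bm, sub_eq_zero]
  have hA' : ∀ {N : TM.{u}} (θ : H →* unitary N.N) (x : N.Hs ι), x ∈ kr (A.map (ev θ)) ↔
      ∀ k, ∑ q : ι × Fin n, a k q • ((θ (γ q.2) : N.N) : N.H →L[ℂ] N.H) (x q.1) = 0 := by
    intro N θ x
    simp only [mem_kr_ev, hA, map_sum, map_smul, act_el]
  have k1 : ∀ {N : TM.{u}} (θ : H →* unitary N.N),
      nul (A.map (ev θ)) ≤ nul ((fromRows (fromRows M₁ M₂) (Bm H σ)).map (ev θ)) := by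
    intro N θ
    let Ψ : Matrix C ι (MonoidAlgebra ℂ H) := Matrix.of
      (Sum.elim (fun i => el i 1) fun z => el z.1.1 (γ z.1.2.1))
    have e1 : ∀ x i, mop (Ψ.map (ev θ)) x (Sum.inl i) = x i := fun x i =>
      (mop_ev θ Ψ x _).trans (act_el_one θ x i)
    have e2 : ∀ x z, mop (Ψ.map (ev θ)) x (Sum.inr z) =
        ((θ (γ z.1.2.1) : N.N) : N.H →L[ℂ] N.H) (x z.1.1) := fun x z =>
      (mop_ev θ Ψ x _).trans (act_el θ x _ _)
    have e3 : ∀ x q t, t ≤ (wk q.2).length → act θ (mop (Ψ.map (ev θ)) x) (ν q t) =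
        ((θ (γ q.2) : N.N) : N.H →L[ℂ] N.H) (x q.1) := by
      rintro x q (_ | s) ht
      · exact (act_el θ _ _ _).trans (by rw [e1])
      · simp only [ν, dif_pos (Nat.lt_of_succ_le ht), act_el_one, e2]
    refine nul_le_of_map (Ψ.map (ev θ)) (fun x hx => (hE θ _).2 ⟨⟨fun k => ?_, fun z => ?_⟩, ?_⟩)
      fun x _ h => PiLp.ext fun i => ?_
    · simpa only [e3 x _ _ le_rfl] using (hA' θ x).1 hx k
    · rw [e2, e3 x _ _ z.2.2.2.le]
    · rintro (i | z)
      · rfl
      · exact (e2 x _).trans (e2 x (z.1, !z.2)).symm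
    · rw [← e1, h]; rfl
  have k2 : ∀ {N : TM.{u}} (θ : H →* unitary N.N),
      nul ((fromRows (fromRows M₁ M₂) (Bm H σ)).map (ev θ)) ≤ nul (A.map (ev θ)) := by
    intro N θ
    let Φ : Matrix ι C (MonoidAlgebra ℂ H) := Matrix.of fun i => el (Sum.inl i) 1
    have e1 : ∀ x i, mop (Φ.map (ev θ)) x i = x (Sum.inl i) := fun x i =>
      (mop_ev θ Φ x _).trans (act_el_one θ x _)
    have e3 : ∀ x ∈ kr ((fromRows (fromRows M₁ M₂) (Bm H σ)).map (ev θ)), ∀ q t,
        t ≤ (wk q.2).length → act θ x (ν q t) =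
          ((θ (γ q.2) : N.N) : N.H →L[ℂ] N.H) (x (Sum.inl q.1)) := by
      intro x hx q t
      induction t with
      | zero => exact fun _ => act_el θ _ _ _
      | succ s ih =>
        intro ht
        simp only [ν, dif_pos (Nat.lt_of_succ_le ht), act_el_one]
        rw [← ih (Nat.le_of_succ_le ht), ((hE θ x).1 hx).2]
        exact ((hE θ x).1 hx).1.2 (q.1, ⟨q.2, ⟨s, ht⟩⟩)
    refine nul_le_of_map (Φ.map (ev θ)) (fun x hx => (hA' θ _).2 fun k => ?_)
      fun x hx h => ?_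
    · simpa only [e3 x hx _ _ le_rfl, e1] using ((hE θ x).1 hx).1.1 k
    · have e4 : ∀ i, x (Sum.inl i) = 0 := fun i => by rw [← e1, h]; rfl
      have e5 : ∀ z, x (Sum.inr (z, false)) = 0 := fun z => by
        rw [((hE θ x).1 hx).1.2, e3 x hx _ _ z.2.2.2.le, e4, map_zero]
      refine PiLp.ext ?_
      rintro (i | ⟨z, _ | _⟩)
      · exact e4 i
      · exact e5 z
      · exact (((hE θ x).1 hx).2 _).trans (e5 z)
  filter_upwards [h1] with i hi
  exact ((sub_le_sub_right (k1 _) ε).trans_lt hi).trans_le (k2 _)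

lemma nul_submatrix_le {M : TM.{v}} {ι κ ι' κ' : Type} [Fintype ι] [Fintype κ] [Fintype ι']
    [Fintype κ'] (C : Matrix κ ι M.N) (e : κ' ≃ κ) (f : ι' ≃ ι) :
    nul (C.submatrix e f) ≤ nul C := by
  classical
  have e1 : ∀ (v : M.Hs ι') i, mop ((1 : Matrix ι' ι' M.N).submatrix f.symm fun j => j) v i =
      v (f.symm i) := fun v i => by
    have := congrArg (fun w : M.Hs ι' => w (f.symm i)) (mop_one v)
    simpa only [mop_apply, submatrix_apply] using this
  refine nul_le_of_map ((1 : Matrix ι' ι' M.N).submatrix f.symm fun j => j)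
    (fun v hv => mem_kr_iff.2 fun k => ?_) fun v _ h => PiLp.ext fun j => ?_
  · rw [← mem_kr_iff.1 hv (e.symm k), mop_apply, mop_apply, ← f.sum_comp]
    simp [e1]
  · rw [← f.symm_apply_apply j, ← e1, h]; rfl

lemma dd_submatrix {G' : Type u} [Group G'] (φ : H →* G') {ι κ ι' κ' : Type} [Fintype ι]
    [Fintype κ] [Fintype ι'] [Fintype κ'] (B : Matrix κ ι (MonoidAlgebra ℂ H)) (e : κ' ≃ κ)
    (f : ι' ≃ ι) : dd φ (B.submatrix e f) = dd φ B := by
  unfold dd
  refine le_antisymm (nul_submatrix_le (B.map (ev ((rho G').comp φ))) e f) ?_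
  have := nul_submatrix_le ((B.submatrix e f).map (ev ((rho G').comp φ))) e.symm f.symm
  rwa [← submatrix_map, submatrix_submatrix, e.self_comp_symm, f.self_comp_symm,
    submatrix_id_id] at this

lemma vnDim_map {G' : Type u} [Group G'] (φ : H →* G') {r s : ℕ}
    (A : Matrix (Fin r) (Fin s) (MonoidAlgebra ℂ H)) :
    vnDim (kerRight (A.map (MonoidAlgebra.mapDomain φ))) =
      dd φ (A.map (MonoidAlgebra.mapDomain fun g : H => g⁻¹))ᵀ := by
  rw [vnDim_kerRight]
  refine ((dd_comp (MonoidHom.id _) φ _).trans ?_).symm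
  congr 1
  refine Matrix.ext fun j k => MonoidAlgebra.ext ?_
  simp only [Matrix.map_apply, Matrix.transpose_apply, MonoidAlgebra.mapDomain,
    ← Finsupp.mapDomain_comp]
  congr 1
  exact funext fun g => map_inv φ g

lemma ap_iff : AP π ↔ ∀ (r s : ℕ) (A : Matrix (Fin r) (Fin s) (MonoidAlgebra ℂ H)),
    Tendsto (fun i => vnDim (kerRight (A.map (MonoidAlgebra.mapDomain (π i))))) atTop
      (𝓝 (vnDim (kerRight A))) := by
  refine ⟨fun h r s A => ?_, fun h ι κ _ _ B => ?_⟩
  · rw [vnDim_kerRight A]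
    exact (h _ _ _).congr fun i => (vnDim_map (π i) A).symm
  have h1 := h _ _ ((B.submatrix (Fintype.equivFin κ).symm (Fintype.equivFin ι).symm).map
    (MonoidAlgebra.mapDomain fun g : H => g⁻¹))ᵀ
  have e : ∀ X : Matrix (Fin (Fintype.card κ)) (Fin (Fintype.card ι)) (MonoidAlgebra ℂ H),
      ((X.map (MonoidAlgebra.mapDomain fun g : H => g⁻¹))ᵀ.map
        (MonoidAlgebra.mapDomain fun g : H => g⁻¹))ᵀ = X := fun X => by
    refine Matrix.ext fun j k => MonoidAlgebra.ext ?_
    simp only [Matrix.map_apply, Matrix.transpose_apply, MonoidAlgebra.mapDomain,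
      ← Finsupp.mapDomain_comp]
    rw [inv_comp_inv, Finsupp.mapDomain_id]
  rw [vnDim_kerRight, e, dd_submatrix] at h1
  refine h1.congr fun i => ?_
  rw [vnDim_map, e, dd_submatrix]

theorem approx_tree {T : SimpleGraph V} (hT : T.IsTree)
    (hadj : ∀ (g : H) u v, T.Adj u v → T.Adj (g • u) (g • v))
    (hfin : ∀ a b, T.Adj a b → {g : H | g • a = a ∧ g • b = b}.Finite)
    (N : ℕ → Subgroup H) [∀ i, (N i).Normal] (hanti : Antitone N) (hinf : ⨅ i, N i = ⊥)
    (hS : ∀ (v : V) (r s : ℕ)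
      (B : Matrix (Fin r) (Fin s) (MonoidAlgebra ℂ (MulAction.stabilizer H v))),
      Tendsto (fun i => vnDim (kerRight (B.map (MonoidAlgebra.mapDomain
        (QuotientGroup.mk' ((N i).subgroupOf (MulAction.stabilizer H v)))))))
        atTop (𝓝 (vnDim (kerRight B))))
    {r s : ℕ} (A : Matrix (Fin r) (Fin s) (MonoidAlgebra ℂ H)) :
    Tendsto
      (fun i => vnDim (kerRight (A.map (MonoidAlgebra.mapDomain (QuotientGroup.mk' (N i))))))
      atTop (𝓝 (vnDim (kerRight A))) := by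
  refine ap_iff.1 (ap_of_tree (π := fun i => QuotientGroup.mk' (N i)) hT hadj hfin
    (fun g hg => ?_) fun v ι κ _ _ B => ?_) r s A
  · obtain ⟨i, hi⟩ : ∃ i, g ∉ N i := by
      by_contra h
      push Not at h
      exact hg (Subgroup.mem_bot.1 (hinf ▸ Subgroup.mem_iInf.2 h))
    filter_upwards [eventually_ge_atTop i] with j hj h
    exact hi (hanti hj ((QuotientGroup.eq_one_iff g).1 h))
  · refine (ap_iff.2 (hS v) ι κ B).congr fun i => dd_congr (fun g => ?_) B
    simp [Subgroup.mem_subgroupOf]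

end Pool.Agent.MP_c6eade_gt.H6
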